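import Pool.Agent.N418.CZ.Stm

/-!
# CZ/ONECON: putting one variable equal to 1, contraction of trace functions
-/

set_option autoImplicit false

namespace Pool.Agent.N495.CZ

open Module Pool.Agent.N418.CZ

/-- reindexing of a trace monomial -/
theorem tr_reindex {k : ℕ} {ι κ : Type} [Fintype ι] [DecidableEq ι] [Fintype κ] [DecidableEq κ]
    (e : ι ≃ κ) (σ : Equiv.Perm κ) (x : ι → Mk k) :
    tr σ (fun a => x (e.symm a)) = tr ((e.trans σ).trans e.symm) x := by
  unfold tr
  refine Fintype.sum_equiv (Equiv.arrowCongr e.symm (Equiv.refl (Fin k))) _ _ fun i => ?_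
  refine Fintype.prod_equiv e.symm _ _ fun s => ?_
  simp [Equiv.arrowCongr]

theorem re {k : ℕ} {ι κ : Type} [Fintype ι] [DecidableEq ι] [Fintype κ] [DecidableEq κ]
    (e : ι ≃ κ) (φ : (κ → Mk k) → ℝ) (hφ : φ ∈ T k κ) :
    (fun x : ι → Mk k => φ (fun a => x (e.symm a))) ∈ T k ι := by
  unfold T at hφ
  refine Submodule.span_induction (p := fun φ _ =>
    (fun x : ι → Mk k => φ (fun a => x (e.symm a))) ∈ T k ι) ?_ ?_ ?_ ?_ hφ
  · rintro _ ⟨σ, rfl⟩
    have h : (fun x : ι → Mk k => tr σ (fun a => x (e.symm a))) =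
        tr ((e.trans σ).trans e.symm) := by
      funext x
      exact tr_reindex e σ x
    rw [h]
    exact Submodule.subset_span ⟨_, rfl⟩
  · exact (T k ι).zero_mem
  · intro a b _ _ ha hb
    exact (T k ι).add_mem ha hb
  · intro c a _ ha
    exact (T k ι).smul_mem c ha

/-- one variable equal to `1` in a trace monomial -/
theorem tr_one {k : ℕ} {ι : Type} [Fintype ι] [DecidableEq ι] (σ : Equiv.Perm (Option ι))
    (x : ι → Mk k) :
    tr σ (fun o => o.elim 1 x) = (if σ none = none then (k : ℝ) else 1) *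
      tr (Equiv.removeNone σ) x := by
  unfold tr
  have h1 : ∑ i : Option ι → Fin k, ∏ s, (fun o : Option ι => o.elim (1 : Mk k) x) s (i s) (i (σ s)) =
      ∑ p : Fin k × (ι → Fin k), (1 : Mk k) p.1 ((σ none).elim p.1 p.2) *
        ∏ a, x a (p.2 a) ((σ (some a)).elim p.1 p.2) := by
    refine Fintype.sum_equiv Equiv.piOptionEquivProd _ _ fun i => ?_
    rw [Fintype.prod_option]
    have hel : ∀ o : Option ι, i o = o.elim (i none) (fun a => i (some a)) := by
      intro o
      cases o <;> rfl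
    have e1 : i (σ none) = (σ none).elim (i none) (fun a => i (some a)) := hel _
    have e2 : ∀ a, i (σ (some a)) = (σ (some a)).elim (i none) (fun a => i (some a)) :=
      fun a => hel _
    show (1 : Mk k) (i none) (i (σ none)) * ∏ a, x a (i (some a)) (i (σ (some a))) =
      (1 : Mk k) (i none) ((σ none).elim (i none) (fun a => i (some a))) *
        ∏ a, x a (i (some a)) ((σ (some a)).elim (i none) (fun a => i (some a)))
    rw [e1]
    congr 1
    apply Finset.prod_congr rfl
    intro a _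
    rw [e2 a]
  rw [h1, Fintype.sum_prod_type_right, Finset.mul_sum]
  apply Finset.sum_congr rfl
  intro j _
  rcases hσ : σ none with _ | b
  · rw [if_pos rfl]
    have h2 : ∀ c : Fin k, (1 : Mk k) c ((none : Option ι).elim c j) *
        ∏ a, x a (j a) ((σ (some a)).elim c j) = ∏ s, x s (j s) (j (Equiv.removeNone σ s)) := by
      intro c
      have h3 : (1 : Mk k) c ((none : Option ι).elim c j) = 1 := Matrix.one_apply_eq c
      rw [h3, one_mul]
      apply Finset.prod_congr rfl
      intro a _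
      have h4 : ∃ a', σ (some a) = some a' := by
        rcases h5 : σ (some a) with _ | a'
        · have := σ.injective (h5.trans hσ.symm)
          simp at this
        · exact ⟨a', rfl⟩
      rw [← Equiv.removeNone_some σ h4]
      rfl
    rw [Finset.sum_congr rfl fun c _ => h2 c, Finset.sum_const, Finset.card_univ,
      Fintype.card_fin, nsmul_eq_mul]
  · rw [if_neg (by simp), one_mul]
    rw [Finset.sum_eq_single (j b)]
    · have h3 : (1 : Mk k) (j b) ((some b : Option ι).elim (j b) j) = 1 :=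
        Matrix.one_apply_eq (j b)
      rw [h3, one_mul]
      apply Finset.prod_congr rfl
      intro a _
      congr 1
      rcases h5 : σ (some a) with _ | a'
      · have h6 := Equiv.removeNone_none σ h5
        rw [hσ] at h6
        have h7 : Equiv.removeNone σ a = b := Option.some_injective _ h6
        rw [h7]
        rfl
      · have h6 := Equiv.removeNone_some σ ⟨a', h5⟩
        rw [h5] at h6
        have h7 : Equiv.removeNone σ a = a' := Option.some_injective _ h6
        rw [h7]
        rfl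
    · intro c _ hc
      have h3 : (1 : Mk k) c ((some b : Option ι).elim c j) = 0 := Matrix.one_apply_ne hc
      rw [h3, zero_mul]
    · intro h
      exact absurd (Finset.mem_univ _) h

theorem t_ONE : S_ONE := by
  intro k ι _ _ φ hφ
  unfold T at hφ
  refine Submodule.span_induction (p := fun φ _ =>
    (fun x : ι → Mk k => φ (fun o => o.elim 1 x)) ∈ T k ι) ?_ ?_ ?_ ?_ hφ
  · rintro _ ⟨σ, rfl⟩
    have h : (fun x : ι → Mk k => tr σ (fun o => o.elim 1 x)) =
        (if σ none = none then (k : ℝ) else 1) • tr (Equiv.removeNone σ) := by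
      funext x
      exact tr_one σ x
    rw [h]
    exact (T k ι).smul_mem _ (Submodule.subset_span ⟨_, rfl⟩)
  · exact (T k ι).zero_mem
  · intro a b _ _ ha hb
    exact (T k ι).add_mem ha hb
  · intro c a _ ha
    exact (T k ι).smul_mem c ha

/-- all variables in `Fin n` equal to `1` -/
theorem ones_fin (k n : ℕ) : ∀ (κ : Type) [Fintype κ] [DecidableEq κ],
    ∀ Φ ∈ T k (Fin n ⊕ κ), (fun y : κ → Mk k => Φ (Sum.elim (fun _ => 1) y)) ∈ T k κ := by
  induction n with
  | zero =>
    intro κ _ _ Φ hΦ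
    have h := re (Equiv.emptySum (Fin 0) κ).symm Φ hΦ
    have h2 : (fun y : κ → Mk k => Φ (Sum.elim (fun _ => 1) y)) =
        (fun x : κ → Mk k => Φ (fun a => x ((Equiv.emptySum (Fin 0) κ).symm.symm a))) := by
      funext y
      congr 1
      funext a
      rcases a with i | c
      · exact i.elim0
      · rfl
    rw [h2]
    exact h
  | succ n ih =>
    intro κ _ _ Φ hΦ
    let e : Option (Fin n ⊕ κ) ≃ Fin (n + 1) ⊕ κ :=
      { toFun := fun o => o.elim (Sum.inl 0) (fun a => a.elim (fun i => Sum.inl i.succ) Sum.inr)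
        invFun := fun a => a.elim (fun i => Fin.cases none (fun j => some (Sum.inl j)) i)
          (fun c => some (Sum.inr c))
        left_inv := by
          intro o
          rcases o with _ | (i | c) <;> rfl
        right_inv := by
          intro a
          rcases a with i | c
          · refine Fin.cases ?_ (fun j => ?_) i <;> rfl
          · rfl }
    have h1 := re e Φ hΦ
    have h2 := t_ONE k (Fin n ⊕ κ) _ h1
    have h3 := ih κ _ h2
    have h4 : (fun y : κ → Mk k => Φ (Sum.elim (fun _ => 1) y)) =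
        (fun y : κ → Mk k => Φ (fun a => (e.symm a).elim (1 : Mk k)
          (Sum.elim (fun _ => 1) y))) := by
      funext y
      congr 1
      funext a
      rcases a with i | c
      · refine Fin.cases ?_ (fun j => ?_) i <;> rfl
      · rfl
    rw [h4]
    exact h3

theorem ones (k : ℕ) (ι κ : Type) [Fintype ι] [DecidableEq ι] [Fintype κ] [DecidableEq κ]
    (Φ : (ι ⊕ κ → Mk k) → ℝ) (hΦ : Φ ∈ T k (ι ⊕ κ)) :
    (fun y : κ → Mk k => Φ (Sum.elim (fun _ => 1) y)) ∈ T k κ := by
  let e0 := Fintype.equivFin ι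
  let e1 : Fin (Fintype.card ι) ⊕ κ ≃ ι ⊕ κ := Equiv.sumCongr e0.symm (Equiv.refl κ)
  have h1 := re e1 Φ hΦ
  have h2 := ones_fin k _ κ _ h1
  have h3 : (fun y : κ → Mk k => Φ (Sum.elim (fun _ => 1) y)) =
      (fun y : κ → Mk k => Φ (fun a => (Sum.elim (fun _ => (1 : Mk k)) y) (e1.symm a))) := by
    funext y
    congr 1
    funext a
    rcases a with i | c <;> rfl
  rw [h3]
  exact h2

/-- the value of a product of matrix units -/
theorem prod_EE {k : ℕ} {ι : Type} [Fintype ι] [DecidableEq ι] (a b p q : ι → Fin k) :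
    ∏ s, EE a b s (p s) (q s) = if a = p ∧ b = q then (1 : ℝ) else 0 := by
  by_cases h : a = p ∧ b = q
  · rw [if_pos h]
    apply Finset.prod_eq_one
    intro s _
    rw [← h.1, ← h.2]
    exact Matrix.single_apply_same _ _ _
  · rw [if_neg h]
    have h2 : ∃ s, ¬ (a s = p s ∧ b s = q s) := by
      by_contra hcon
      push Not at hcon
      exact h ⟨funext fun s => (hcon s).1, funext fun s => (hcon s).2⟩
    obtain ⟨s, hs⟩ := h2
    apply Finset.prod_eq_zero (Finset.mem_univ s)
    exact Matrix.single_apply_of_ne _ _ _ _ _ hs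

theorem tr_EE {k : ℕ} {ι : Type} [Fintype ι] [DecidableEq ι] (τ : Equiv.Perm ι)
    (a b : ι → Fin k) : tr τ (EE a b) = if b = (fun s => a (τ s)) then (1 : ℝ) else 0 := by
  unfold tr
  rw [Finset.sum_eq_single a]
  · rw [prod_EE a b a (fun s => a (τ s))]
    simp
  · intro i _ hi
    rw [prod_EE a b i (fun s => i (τ s)), if_neg]
    intro h
    exact hi h.1.symm
  · intro h
    exact absurd (Finset.mem_univ _) h

theorem con_tr {k : ℕ} {ι κ : Type} [Fintype ι] [DecidableEq ι] [Fintype κ] [DecidableEq κ]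
    (τ : Equiv.Perm ι) (σ : Equiv.Perm (ι ⊕ κ)) (y : κ → Mk k) :
    ∑ a : ι → Fin k, ∑ b : ι → Fin k, tr τ (EE a b) * tr σ (Sum.elim (EE a b) y) =
      tr ((Equiv.sumCongr τ.symm (Equiv.refl κ)).trans σ) (Sum.elim (fun _ => (1 : Mk k)) y) := by
  have h1 : ∀ a : ι → Fin k, ∑ b : ι → Fin k, tr τ (EE a b) * tr σ (Sum.elim (EE a b) y) =
      tr σ (Sum.elim (EE a (fun s => a (τ s))) y) := by
    intro a
    rw [Finset.sum_eq_single (fun s => a (τ s))]
    · rw [tr_EE, if_pos rfl, one_mul]
    · intro b _ hb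
      rw [tr_EE, if_neg hb, zero_mul]
    · intro h
      exact absurd (Finset.mem_univ _) h
  rw [Finset.sum_congr rfl fun a _ => h1 a]
  unfold tr
  rw [Finset.sum_comm]
  apply Finset.sum_congr rfl
  intro i _
  have h2 : ∀ a : ι → Fin k, ∏ s : ι ⊕ κ, (Sum.elim (EE a (fun s => a (τ s))) y : ι ⊕ κ → Mk k) s
      (i s) (i (σ s)) = (if a = (fun s => i (Sum.inl s)) ∧
        (fun s => a (τ s)) = (fun s => i (σ (Sum.inl s))) then (1 : ℝ) else 0) *
        ∏ c, y c (i (Sum.inr c)) (i (σ (Sum.inr c))) := by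
    intro a
    rw [Fintype.prod_sum_type, ← prod_EE]
    rfl
  rw [Finset.sum_congr rfl fun a _ => h2 a, Finset.sum_eq_single (fun s => i (Sum.inl s))]
  · rw [Fintype.prod_sum_type]
    congr 1
    have h3 : ∏ s : ι, (Sum.elim (fun _ => (1 : Mk k)) y : ι ⊕ κ → Mk k) (Sum.inl s)
        (i (Sum.inl s)) (i (((Equiv.sumCongr τ.symm (Equiv.refl κ)).trans σ) (Sum.inl s))) =
        ∏ s : ι, (1 : Mk k) (i (Sum.inl (τ s))) (i (σ (Sum.inl s))) := by
      refine Fintype.prod_equiv τ.symm _ _ fun s => ?_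
      show (1 : Mk k) (i (Sum.inl s)) (i (σ (Sum.inl (τ.symm s)))) =
        (1 : Mk k) (i (Sum.inl (τ (τ.symm s)))) (i (σ (Sum.inl (τ.symm s))))
      rw [Equiv.apply_symm_apply]
    rw [h3]
    by_cases h4 : (fun s => i (Sum.inl (τ s))) = (fun s => i (σ (Sum.inl s)))
    · rw [if_pos ⟨rfl, h4⟩]
      symm
      apply Finset.prod_eq_one
      intro s _
      rw [congrFun h4 s]
      exact Matrix.one_apply_eq _
    · rw [if_neg (fun h => h4 h.2)]
      have h5 : ∃ s, i (Sum.inl (τ s)) ≠ i (σ (Sum.inl s)) := by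
        by_contra hcon
        push Not at hcon
        exact h4 (funext hcon)
      obtain ⟨s, hs⟩ := h5
      symm
      exact Finset.prod_eq_zero (Finset.mem_univ s) (Matrix.one_apply_ne hs)
  · intro a _ ha
    rw [if_neg (fun h => ha h.1), zero_mul]
  · intro h
    exact absurd (Finset.mem_univ _) h

theorem t_CON : S_CON := by
  intro k ι κ _ _ _ _ D hD Φ hΦ
  have key : ∀ τ : Equiv.Perm ι, (fun y : κ → Mk k => ∑ a : ι → Fin k, ∑ b : ι → Fin k,
      tr τ (EE a b) * Φ (Sum.elim (EE a b) y)) ∈ T k κ := by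
    intro τ
    unfold T at hΦ
    refine Submodule.span_induction (p := fun Φ _ => (fun y : κ → Mk k =>
      ∑ a : ι → Fin k, ∑ b : ι → Fin k, tr τ (EE a b) * Φ (Sum.elim (EE a b) y)) ∈ T k κ)
      ?_ ?_ ?_ ?_ hΦ
    · rintro _ ⟨σ, rfl⟩
      have h : (fun y : κ → Mk k => ∑ a : ι → Fin k, ∑ b : ι → Fin k,
          tr τ (EE a b) * tr σ (Sum.elim (EE a b) y)) =
          (fun y : κ → Mk k => tr ((Equiv.sumCongr τ.symm (Equiv.refl κ)).trans σ)
            (Sum.elim (fun _ => (1 : Mk k)) y)) := by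
        funext y
        exact con_tr τ σ y
      rw [h]
      exact ones k ι κ _ (Submodule.subset_span ⟨_, rfl⟩)
    · have h : (fun y : κ → Mk k => ∑ a : ι → Fin k, ∑ b : ι → Fin k,
          tr τ (EE a b) * (0 : (ι ⊕ κ → Mk k) → ℝ) (Sum.elim (EE a b) y)) = 0 := by
        funext y
        simp
      rw [h]
      exact (T k κ).zero_mem
    · intro u v _ _ hu hv
      have h : (fun y : κ → Mk k => ∑ a : ι → Fin k, ∑ b : ι → Fin k,
          tr τ (EE a b) * (u + v) (Sum.elim (EE a b) y)) =
          (fun y : κ → Mk k => ∑ a : ι → Fin k, ∑ b : ι → Fin k,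
          tr τ (EE a b) * u (Sum.elim (EE a b) y)) + (fun y : κ → Mk k => ∑ a : ι → Fin k,
          ∑ b : ι → Fin k, tr τ (EE a b) * v (Sum.elim (EE a b) y)) := by
        funext y
        simp only [Pi.add_apply, mul_add, Finset.sum_add_distrib]
      rw [h]
      exact (T k κ).add_mem hu hv
    · intro c u _ hu
      have h : (fun y : κ → Mk k => ∑ a : ι → Fin k, ∑ b : ι → Fin k,
          tr τ (EE a b) * (c • u) (Sum.elim (EE a b) y)) =
          c • (fun y : κ → Mk k => ∑ a : ι → Fin k, ∑ b : ι → Fin k,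
          tr τ (EE a b) * u (Sum.elim (EE a b) y)) := by
        funext y
        simp only [Pi.smul_apply, smul_eq_mul, Finset.mul_sum]
        refine Finset.sum_congr rfl fun a _ => Finset.sum_congr rfl fun b _ => ?_
        ring
      rw [h]
      exact (T k κ).smul_mem c hu
  unfold T at hD
  refine Submodule.span_induction (p := fun D _ => (fun y : κ → Mk k =>
    ∑ a : ι → Fin k, ∑ b : ι → Fin k, D (EE a b) * Φ (Sum.elim (EE a b) y)) ∈ T k κ)
    ?_ ?_ ?_ ?_ hD
  · rintro _ ⟨τ, rfl⟩
    exact key τ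
  · have h : (fun y : κ → Mk k => ∑ a : ι → Fin k, ∑ b : ι → Fin k,
        (0 : (ι → Mk k) → ℝ) (EE a b) * Φ (Sum.elim (EE a b) y)) = 0 := by
      funext y
      simp
    rw [h]
    exact (T k κ).zero_mem
  · intro u v _ _ hu hv
    have h : (fun y : κ → Mk k => ∑ a : ι → Fin k, ∑ b : ι → Fin k,
        (u + v) (EE a b) * Φ (Sum.elim (EE a b) y)) =
        (fun y : κ → Mk k => ∑ a : ι → Fin k, ∑ b : ι → Fin k,
        u (EE a b) * Φ (Sum.elim (EE a b) y)) + (fun y : κ → Mk k => ∑ a : ι → Fin k,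
        ∑ b : ι → Fin k, v (EE a b) * Φ (Sum.elim (EE a b) y)) := by
      funext y
      simp only [Pi.add_apply, add_mul, Finset.sum_add_distrib]
    rw [h]
    exact (T k κ).add_mem hu hv
  · intro c u _ hu
    have h : (fun y : κ → Mk k => ∑ a : ι → Fin k, ∑ b : ι → Fin k,
        (c • u) (EE a b) * Φ (Sum.elim (EE a b) y)) =
        c • (fun y : κ → Mk k => ∑ a : ι → Fin k, ∑ b : ι → Fin k,
        u (EE a b) * Φ (Sum.elim (EE a b) y)) := by
      funext y
      simp only [Pi.smul_apply, smul_eq_mul, Finset.mul_sum]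
      refine Finset.sum_congr rfl fun a _ => Finset.sum_congr rfl fun b _ => ?_
      ring
    rw [h]
    exact (T k κ).smul_mem c hu

end Pool.Agent.N495.CZ
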